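import Mathlib
import Pool.Agent.N895.RO.Main

/-!
# Regular indices of every order, for every prime

Let `p` be an odd prime. For `1 ≤ i ≤ (p - 3) / 2` the character `ω^(2 i - 1)` (`ω` the Teichmüller
character modulo `p`) has the order `(p - 1) / gcd (2 i - 1, p - 1)`. The indices `i` therefore fall
into the classes `gcd (2 i - 1, p - 1) = g`, one for each odd divisor `g` of `p - 1`; the class of
`g` has `φ((p - 1) / g)` elements (one less for `g = 1`, as `ω^(p - 2)` does not occur). The prime is
regular if none of the classes contains an index `i` for which `p` divides the numerator of `B_{2i}`.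

For every prime `p` and every class at most `φ(d) (1/2 + log log p / log p)` of the indices of the
class, `d = (p - 1) / g`, are irregular; in many cases, for instance if `16 φ(d) ≥ p - 1`, at most
exactly one half of `φ(d)`.

Outline.  Let `S(χ) = ∑_{a < p/2} χ(a)`. For the characters `χ` of order `d` these are the conjugates
of an integer of `ℚ(e^{2πi/d})`, not zero since `L(1, χ) ≠ 0`. Its norm is divisible by `p^I`, `I` the
number of the irregular indices of the class (Kummer's congruences, in the form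
`∑_{a<p/2} a^(2i-1) ≡ 0`), and `(1 - ζ) S(χ)` is divisible by `2`: the numbers of the `a < p/2` of
index `c` and `c + d/2` modulo `d` have the odd sum `g`. The conjugates are bounded by the inequality
of Pólya and Vinogradov, or on average by Parseval's equation.
-/

set_option autoImplicit false

namespace Pool.Agent.Results.MP_a3a416_nt.OrderClasses

open Finset

/-- the irregular indices `i` of `p` with `gcd (2 i - 1, p - 1) = g`: `1 ≤ i ≤ (p - 3) / 2` and `p`
divides the numerator of the Bernoulli number `B_{2i}` -/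
noncomputable def irr (p g : ℕ) : Finset ℕ :=
  (Icc 1 ((p - 3) / 2)).filter (fun i : ℕ => Nat.gcd (2 * i - 1) (p - 1) = g ∧
    (p : ℤ) ∣ (bernoulli (2 * i)).num)

/-- the regular indices `i` of `p` with `gcd (2 i - 1, p - 1) = g`: `1 ≤ i ≤ (p - 3) / 2` and `p` does
not divide the numerator of the Bernoulli number `B_{2i}` -/
noncomputable def reg (p g : ℕ) : Finset ℕ :=
  (Icc 1 ((p - 3) / 2)).filter (fun i : ℕ => Nat.gcd (2 * i - 1) (p - 1) = g ∧
    ¬ (p : ℤ) ∣ (bernoulli (2 * i)).num)

/-- Let `p` be an odd prime and `g` an odd divisor of `p - 1`; put `d = (p - 1) / g` and let `I` be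
the number of the irregular indices `i` with `gcd (2 i - 1, p - 1) = g`.

1. The number of all the indices with this gcd is `φ(d)`, for `g = 1` it is `φ(d) - 1`.
2. `p^(2I) 4^φ(d) ≤ 4 (p (log p)^2)^φ(d)`.
3. `p^(2I) (16 φ(d))^φ(d) ≤ 4 (p - 1)^(2 φ(d))`.
4. If `(log p)^φ(d) < 2^(φ(d) - 1) √p`, or if `p - 1 ≤ 16 φ(d)`, then `I ≤ φ(d) / 2`.
5. For every `ε > 0` and all large `p`, `I ≤ (1/2 + ε) φ(d)` for all `g` simultaneously. -/
theorem result :
    (∀ p g : ℕ, p.Prime → p ≠ 2 → Odd g → g ∣ p - 1 →
      ((reg p g).card + (irr p g).card + (if g = 1 then 1 else 0) = ((p - 1) / g).totient ∧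
      (p : ℝ) ^ (2 * (irr p g).card) * 4 ^ ((p - 1) / g).totient ≤
        4 * (p * Real.log p ^ 2) ^ ((p - 1) / g).totient ∧
      p ^ (2 * (irr p g).card) * (16 * ((p - 1) / g).totient) ^ ((p - 1) / g).totient ≤
        4 * (p - 1) ^ (2 * ((p - 1) / g).totient) ∧
      (Real.log p ^ ((p - 1) / g).totient < 2 ^ (((p - 1) / g).totient - 1) * Real.sqrt p ∨
        p - 1 ≤ 16 * ((p - 1) / g).totient → 2 * (irr p g).card ≤ ((p - 1) / g).totient))) ∧
    ∀ ε : ℝ, 0 < ε → ∃ p₀ : ℕ, ∀ p : ℕ, p₀ ≤ p → p.Prime → ∀ g : ℕ, Odd g → g ∣ p - 1 →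
      ((irr p g).card : ℝ) ≤ (1 / 2 + ε) * ((p - 1) / g).totient :=
  ⟨fun _ _ hp hp2 hg hgp => ⟨Pool.Agent.N895.RO.count hp hp2 hg hgp,
    Pool.Agent.N895.RO.pv_bound hp hp2 hg hgp, Pool.Agent.N895.RO.pars_bound hp hp2 hg hgp,
    Pool.Agent.N895.RO.half hp hp2 hg hgp⟩, Pool.Agent.N895.RO.asym⟩

end Pool.Agent.Results.MP_a3a416_nt.OrderClasses
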