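import Mathlib
import Pool.Agent.N840.RC.Fin

/-!
# Regular indices in residue classes, and exponential polynomials at the regular indices

Call `i`, `1 ≤ i ≤ (p - 3) / 2`, a regular index of the odd prime `p` if `p` does not divide the
numerator of the Bernoulli number `B_{2i}`; `p` is regular if and only if all these indices are.

(1) Let `A` be any set of `n` integers between `1` and `(p - 1) / 2`. The number of the functions `c`
from `A` to the field of `p` elements with `∑ c(a) a^(2i-1) = 0` for all regular indices `i` (and for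
`i = (p - 1) / 2`) is at most `2 (2 n log 2p)^(n/2)`. So on the regular indices the functions `a^(2i-1)`,
`a ∈ A`, have at least the rank `n (1 - log (2 n log 2p) / (2 log p)) - log 2 / log p`.
(2) In particular no exponential polynomial `∑ c(a) a^(2i-1)`, `c ≠ 0`, with
`4 (2 n log 2p)^n < p^2` vanishes at all of them.
(3) Let `h` divide `(p - 1) / 2` and `n h ≤ (p - 1) / 2`. Let `g_j` be the number of the regular
indices `i ≡ j (mod h)`, for `j = 0` increased by one. Then
`p^(2 ∑_j max (0, n - g_j)) ≤ 4 (2 n h log 2p)^(n h)`.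
(4) For every `ε > 0` and all large `p`, `∑_j max (0, n - g_j) ≤ (log (n h) / (2 log p) + ε) n h` for all
these `h` and `n`. For `n = 1` and `h = p^δ`: all but at most `(δ / 2 + ε) h` of the `h` residue classes
modulo `h` contain a regular index (the class of `0` not counted).

Proof. Let `s(x) = ±1` be the sign of the absolutely least residue of `x`. For an irregular index
`∑ s(x) x^(2i-1) = 0` modulo `p`, and `∑ s(x) χ(x) ≠ 0` for all odd complex characters `χ` modulo `p`.
If `c` is as in (1) then all the numbers `∑ c(a) s(b / a)` vanish modulo `p`. If `c` is the reduction of an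
integral function, not zero, they cannot all be zero, so one of them has at least the absolute value
`p`. But for at least half of the functions with values between `0` and `H`, the mean values
subtracted, all these `p - 1` sums are smaller than `p`, if `H √(2 n log 2p) ≤ p` (exponential moments, as in
Hoeffding's inequality); so the classes of these functions modulo the `c` of (1) are different.
For (3) take for `A` the union of `n` cosets of the subgroup with `2h` elements modulo `±1`; there the
functions of (1) are sums of functions `u(r) t^(1-2j)`, where `u` is subject to `g_j` linear conditions.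
-/

set_option autoImplicit false

namespace Pool.Agent.Results.MP_a3a416_nt.RegularClasses

open Finset

/-- the regular indices `i` of `p` in the residue class of `j` modulo `h`: `1 ≤ i ≤ (p - 3) / 2`,
`i % h = j`, and `p` does not divide the numerator of the Bernoulli number `B_{2i}` -/
noncomputable def reg (p h j : ℕ) : Finset ℕ :=
  (Icc 1 ((p - 3) / 2)).filter (fun i : ℕ => i % h = j ∧ ¬ (p : ℤ) ∣ (bernoulli (2 * i)).num)

theorem result :
    (∀ p : ℕ, p.Prime → p ≠ 2 → ∀ A : Finset ℕ, A ⊆ Icc 1 ((p - 1) / 2) →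
      (Nat.card {c : A → ZMod p // ∀ i ∈ Icc 1 ((p - 1) / 2),
        (2 * i = p - 1 ∨ ¬ (p : ℤ) ∣ (bernoulli (2 * i)).num) →
          ∑ a, c a * (((a : ℕ) : ZMod p)) ^ (2 * i - 1) = 0} : ℝ) ^ 2 ≤
        4 * (2 * A.card * Real.log (2 * p)) ^ A.card) ∧
    (∀ p : ℕ, p.Prime → p ≠ 2 → ∀ A : Finset ℕ, A ⊆ Icc 1 ((p - 1) / 2) →
      4 * (2 * A.card * Real.log (2 * p)) ^ A.card < (p : ℝ) ^ 2 → ∀ c : ℕ → ZMod p,
      (∀ i ∈ Icc 1 ((p - 1) / 2), (2 * i = p - 1 ∨ ¬ (p : ℤ) ∣ (bernoulli (2 * i)).num) →
        ∑ a ∈ A, c a * ((a : ℕ) : ZMod p) ^ (2 * i - 1) = 0) → ∀ a ∈ A, c a = 0) ∧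
    (∀ p : ℕ, p.Prime → p ≠ 2 → ∀ h n : ℕ, h ∣ (p - 1) / 2 → n * h ≤ (p - 1) / 2 →
      (p : ℝ) ^ (2 * ∑ j ∈ range h, (n - ((reg p h j).card + if j = 0 then 1 else 0))) ≤
        4 * (2 * (n * h : ℕ) * Real.log (2 * p)) ^ (n * h)) ∧
    (∀ ε : ℝ, 0 < ε → ∃ P : ℕ, ∀ p : ℕ, P ≤ p → p.Prime → ∀ h n : ℕ,
      h ∣ (p - 1) / 2 → 1 ≤ n → n * h ≤ (p - 1) / 2 →
      ((∑ j ∈ range h, (n - ((reg p h j).card + if j = 0 then 1 else 0)) : ℕ) : ℝ) ≤
        (Real.log (n * h : ℕ) / (2 * Real.log p) + ε) * (n * h : ℕ)) :=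
  ⟨fun _ hp hp2 A hA => Pool.Agent.N840.RC.sets hp hp2 A hA,
    fun _ hp hp2 A hA hlt c hc => Pool.Agent.N840.RC.short hp hp2 A hA hlt c hc,
    fun _ hp hp2 h n hh hn => Pool.Agent.N840.RC.classes hp hp2 h n hh hn,
    Pool.Agent.N840.RC.asym⟩

end Pool.Agent.Results.MP_a3a416_nt.RegularClasses
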