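import Mathlib
import Pool.Agent.N957.RP.Index

/-!
# The regular indices up to `K` are spread out, for every prime and every `K`

Call `i`, `1 ≤ i ≤ (p - 3) / 2`, a regular index of the prime `p` if `p` does not divide the
numerator of `B_{2i}`.  Let `K ≤ (p - 3) / 2` and `3 V + 1 + x ≤ K`.  If the regular indices `i` with
`V < i < K - V` are covered by `L` intervals `[b, e]` and `Λ = ∑ (e - b)` then
`x √x ≤ 3 Λ √x + (16 / 5) L (L + 2 Λ)`.

So for `1 ≤ M ≤ √x` at least a constant times `x^{3/4} M^{-1/2}` of the intervals of length `M` in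
`(V, K - V)` contain a regular index, and for `√x ≤ M` at least a constant times `x / M` of them do.
For `M = 1` this is the count `0.55 x^{3/4}` of the regular indices in `(V, K - V)`, here with
`x = K - 3 V - 1`: for every `δ > 0` there are at least `c K^{3/4}` regular indices between `K` and
`(2 + δ) K` (the result `RegularIndexCount` gives the order `K^{3/4}` between `1` and `K`).

Outline.  The `i` such that `i` and `N - i` are regular indices are covered by the intervals
`[b, e] ∩ (N - [b', e'])`, and are not covered by few short intervals (`Spread.lean`, result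
`RegularSumsSpread`).  For all `N`, `3 V + 1 < N ≤ 3 V + 1 + x`, together the number of these
intervals which are not empty is at most `L (L + 2 Λ)` and the sum of their lengths at most `Λ ^ 2`.
-/

set_option autoImplicit false

namespace Pool.Agent.Results.MP_a3a416_nt.RegularIndexSpread

open Finset Pool.Agent.H332R2

/-- Let `p` be a prime, `2 K + 3 ≤ p`, `3 V + 1 + x ≤ K`, and let every `i`, `V < i < K - V`, such that
`p` does not divide the numerator of the Bernoulli number `B_{2i}` lie in one of the `L` intervals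
`[b l, e l]`; let `Λ = ∑ (e l - b l)`. Then `5 x √x ≤ 15 Λ √x + 16 L (L + 2 Λ)`. -/
theorem result (p : ℕ) (hp : p.Prime) (K V x : ℕ) (hK : 2 * K + 3 ≤ p) (hx : 3 * V + 1 + x ≤ K)
    (L : ℕ) (b e : Fin L → ℕ)
    (hcov : ∀ i : ℕ, V < i → i < K - V → ¬ ((p : ℤ) ∣ (bernoulli (2 * i)).num) →
      ∃ l : Fin L, b l ≤ i ∧ i ≤ e l) (Λ : ℕ) (hΛ : Λ = ∑ l : Fin L, (e l - b l)) :
    5 * (x : ℝ) * Real.sqrt x ≤ 15 * (Λ : ℝ) * Real.sqrt x + 16 * ((L : ℝ) * (L + 2 * Λ)) := by
  have : Fact p.Prime := ⟨hp⟩
  have h := Pool.Agent.N957.RP.index_spread p K V x hK hx (Finset.univ : Finset (Fin L)) b e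
    (fun i h1 h2 h3 => by
      obtain ⟨l, hl⟩ := hcov i h1 h2 (fun h => h3 ((cc_eq_zero_iff (by omega) (by omega)).2 h))
      exact ⟨l, Finset.mem_univ _, hl⟩)
  rw [Finset.card_univ, Fintype.card_fin, ← hΛ] at h
  exact h

end Pool.Agent.Results.MP_a3a416_nt.RegularIndexSpread
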