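import Mathlib
import Pool.Agent.N957.RP.Spread

/-!
# The representations as a sum of two regular indices are spread out, for every prime

Call `i`, `0 ≤ i ≤ (p - 3) / 2`, a regular index of the prime `p` if `p` does not divide the
numerator of `B_{2i}` (`0` is one).  Let `2 ≤ N ≤ (p - 3) / 2` and `2 V < N`.  If the `i`,
`V < i < N - V`, such that `i` and `N - i` are both regular indices are covered by `L` intervals
`[b, e]` then `4 N ≤ 12 V + 14 ∑ (e - b) + 9 L (L + 1) + 4`.

So these `i` are not covered by fewer than about `(2/3) √N` intervals of bounded length, nor by a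
bounded number of intervals of total length less than `2 N / 7`.  With intervals of one element: their
number `r` satisfies `4 N ≤ 12 V + 9 r (r + 1) + 4`, so for every `δ > 0` every `N` is in at least
`c √N` ways a sum of two regular indices which are both larger than `(1/3 - δ) N`.  The result
`BalancedRegularSums` gives only the order `min (√N, N / V)`.

Outline.  Put `w_i = c_i c_{N-i}`, `c_i = B_{2i} / (2i)!` modulo `p`; then (addition theorem of `coth`)
`∑ w_i (X + 1) X^{2i} = ∑ w_i (X (X + 1)^{2i} + X^{2(N-i)} (X + 1)^{2i})`.
1. The zero estimate for blocks (`Pool/Agent/N957/RP/Z.lean`).  Let `g_j = X^{a_j} (X + 1)^{b_j} P_j`,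
   `deg P_j ≤ D_j`, be `n` polynomials of degree `< p` over a field of characteristic `p`, and let `H`
   be in their span but not in the span of those with `b_j > 1`.  Then the order of `H` at `-1` is at
   most `∑ D_j + n (n - 1) / 2 + 1`.  (The family need not be independent; Wronskian for
   `X (X + 1) d / dX`.)
2. The terms whose index lies in one interval are put together to three functions `g_j` with
   `D_j = 2 (e - b)` (`Blk.lean`).  For the two ends `[0, V]` and `[N - V, N]` the first and the
   second kind of terms, and the first and the third kind, combine to two functions with `D_j = 2 V`.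
3. The terms of the second and third kind of the topmost block vanish at `-1` to high order; they
   are not a combination of the other terms of these kinds (`BC_indep`).
4. If no representation lies in the ends, the least index `k` of a representation is also bounded, by
   half their number, from the order at `-1` of the sparse polynomial `∑ w_i X^{2i}`; that there is a
   representation is the theorem `two_exists_all` (`Pool/Agent/Y374/RP/Final.lean`).
-/

set_option autoImplicit false

namespace Pool.Agent.Results.MP_a3a416_nt.RegularSumsSpread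

open Finset Pool.Agent.H332R2 Pool.Agent.TH350.SumReg

/-- Let `p` be a prime, `2 ≤ N ≤ (p - 3) / 2`, `2 V < N`, and let every `i`, `V < i < N - V`, such that
`p` divides neither the numerator of `B_{2i}` nor the numerator of `B_{2(N-i)}` lie in one of the `L`
intervals `[b l, e l]`. Then `4 N ≤ 12 V + 14 ∑ (e l - b l) + 9 L (L + 1) + 4`. -/
theorem result (p : ℕ) (hp : p.Prime) (N : ℕ) (hN2 : 2 ≤ N) (hN : 2 * N + 3 ≤ p) (V : ℕ)
    (hV : 2 * V < N) (L : ℕ) (b e : Fin L → ℕ)
    (hcov : ∀ i : ℕ, V < i → i < N - V → ¬ ((p : ℤ) ∣ (bernoulli (2 * i)).num) →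
      ¬ ((p : ℤ) ∣ (bernoulli (2 * (N - i))).num) → ∃ l : Fin L, b l ≤ i ∧ i ≤ e l) :
    4 * N ≤ 12 * V + 14 * ∑ l : Fin L, (e l - b l) + 9 * (L * (L + 1)) + 4 := by
  have : Fact p.Prime := ⟨hp⟩
  have hccb : ∀ m, 2 * m + 3 ≤ p → (cc p (2 * m) = 0 ↔ (p : ℤ) ∣ (bernoulli (2 * m)).num) :=
    fun m hm => cc_eq_zero_iff (by omega) (by omega)
  have h := Pool.Agent.N957.RP.spread p N V hN hN2 hV (Finset.univ : Finset (Fin L)) b e
    (fun i h1 h2 h3 => by
      unfold ww at h3
      obtain ⟨h4, h5⟩ := mul_ne_zero_iff.1 h3
      obtain ⟨l, hl⟩ := hcov i h1 h2 (fun h => h4 ((hccb i (by omega)).2 h))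
        (fun h => h5 ((hccb (N - i) (by omega)).2 h))
      exact ⟨l, Finset.mem_univ _, hl⟩)
  rw [Finset.card_univ, Fintype.card_fin] at h
  exact h

end Pool.Agent.Results.MP_a3a416_nt.RegularSumsSpread
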